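import Pool.Agent.X107.MU.MU33

/-!
# Homogeneous functions of shifted values of zeta next to the critical line and the values of zeta to the right of the line

Let `δ(T) → 0`, `δ(T) log T → ∞` and let `k > 0` be real. For a compact subset `K` of the strip `1/2 < Re z < 1` and a
set `A` of functions let `S_ε` be the set of the real `t` for which `z ↦ ζ(z + it)` is uniformly on `K` at distance
less than `ε` from a member of `A`. There is a monotone function `p_k` of `ε`, with values in `[0, 1]` and depending on `k`, `K`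
and `A` only, such that for all `ε` at which it is continuous, all reals `a_1, ..., a_n` and all continuous
`F : ℂ^n → ℝ` with `F(z v) = |z|^(2k) F(v)`
`(2δ)^(k²) (1/T) ∫_{[0, T] ∩ S_ε} F(ζ(1/2 + δ + i (t + a_1 δ)), ..., ζ(1/2 + δ + i (t + a_n δ))) dt`
tends to `a(k) p_k(ε) E F(f(i a_1), ..., f(i a_n))` with the random function
`f(z) = (1 + z/2)^(-k) exp(∑_{n ≥ 1} ξ_n w^n / √n)`, `w = z/(z+2)`; here `k ≤ 2`, while for `k ≥ 2 + 2c` this
holds off sets `E(T)` of measure `o(δ^(4+4c) T)` on which some `|ζ(1/2 + δ + i (t + a δ))|` exceeds `δ^(-2-c)`.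
For example `F(v_1, v_2)` may be the real or the imaginary part of `v_1^k conj(v_2)^k` (`k` an integer).
So under the moment measures the local behaviour of zeta next to the line is independent of its values to the
right of the line. For `A = {f}`, `p_k(ε)` is positive for all `ε > 0` if and only if `f` is a target of the
universality theorem. For nonnegative `F` and all real `k > 0` the limit is a lower bound over the whole of `[0, T]`.
-/

set_option autoImplicit false

open Filter Set MeasureTheory Topology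

namespace Pool.Agent.Results.MP_069854_nt.LocalFieldAndUniversality

/-- The generalised divisor function at a prime power: `d_k(p^m) = Γ(k + m) / (Γ(k) m!)`. -/
noncomputable def dk (k : ℝ) (m : ℕ) : ℝ := Real.Gamma (k + m) / (Real.Gamma k * (m.factorial : ℝ))

/-- The arithmetic factor `a(k) = ∏_p (1 - 1/p)^(k²) ∑_m d_k(p^m)² p^(-m)`. -/
noncomputable def ak (k : ℝ) : ℝ :=
  ∏' p : Nat.Primes, ((1 - 1 / (p : ℝ)) ^ (k ^ 2) * ∑' m : ℕ, dk k m ^ 2 / (p : ℝ) ^ m)

/-- The centred normal law of variance `1/2`. -/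
noncomputable def ga : Measure ℝ := ProbabilityTheory.gaussianReal 0 (1 / 2)

/-- The law of a sequence of independent standard complex Gaussian variables, as pairs of real and imaginary parts. -/
noncomputable def noise : Measure (ℕ → ℝ × ℝ) := Measure.infinitePi fun _ => ga.prod ga

/-- The limit field `f(z) = (1 + z/2)^(-k) exp(∑_{n ≥ 1} ξ_n w^n / √n)`, `w = z/(z+2)`, `ξ_{n+1} = ω_n`. -/
noncomputable def field (k : ℝ) (ω : ℕ → ℝ × ℝ) (z : ℂ) : ℂ :=
  (1 + z / 2) ^ (-(k : ℂ)) *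
    Complex.exp (∑' n : ℕ, (((ω n).1 : ℂ) + (ω n).2 * Complex.I) * ((z / (z + 2)) ^ (n + 1) / (Real.sqrt (n + 1) : ℂ)))

/-- The values of zeta at the shifts: `a ↦ ζ(1/2 + δ + i (t + a δ))`. -/
noncomputable def shifts (δ t a : ℝ) : ℂ := riemannZeta (1 / 2 + δ + Complex.I * (t + a * δ))

/-- the real `t` for which `z ↦ ζ(z + it)` is uniformly on `K` at distance less than `ε` from a
member of `A` -/
def S (ε : ℝ) (K : Set ℂ) (A : Set (ℂ → ℂ)) : Set ℝ :=
  {t : ℝ | ∃ f ∈ A, ∃ η < ε, ∀ z ∈ K, ‖riemannZeta (z + t * Complex.I) - f z‖ ≤ η}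

/-- the hull of `K`: the union of `K` and of the bounded components of its complement -/
def hull (K : Set ℂ) : Set ℂ :=
  K ∪ {z | z ∉ K ∧ Bornology.IsBounded (connectedComponentIn Kᶜ z)}

/-- `g` is continuous on `L`, holomorphic in the interior of `L`, and on each component of the
interior of `L` either free of zeros or identically zero. -/
structure Good (L : Set ℂ) (g : ℂ → ℂ) : Prop where
  cont : ContinuousOn g L
  hol : DifferentiableOn ℂ g (interior L)
  comp : ∀ z ∈ interior L, (∀ w ∈ connectedComponentIn (interior L) z, g w ≠ 0) ∨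
    (∀ w ∈ connectedComponentIn (interior L) z, g w = 0)

/-- `f` extends from `K` to a good function on the hull of `K` -/
def IsTarget (K : Set ℂ) (f : ℂ → ℂ) : Prop := ∃ g : ℂ → ℂ, (∀ z ∈ K, g z = f z) ∧ Good (hull K) g

/-- the set `D(T)` of the integration: `[0, T]` without `E(T)`, for `k ≤ 2` or `k ≥ 2 + 2c`, or the whole of `[0, T]`
for `k ≤ 2` -/
def Admissible (E : ℝ → Set ℝ) (c k : ℝ) (D : ℝ → Set ℝ) : Prop :=
  ((k ≤ 2 ∨ 2 + 2 * c ≤ k) ∧ ∀ T, D T = Icc 0 T \ E T) ∨ (k ≤ 2 ∧ ∀ T, D T = Icc 0 T)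

/-- the normalised mean of `F` of the shifted values over the part in `P` of `D(T)`:
`(2δ)^(k²) (1/T) ∫_{D(T) ∩ P} F(ζ(1/2 + δ + i (t + a_1 δ)), ..., ζ(1/2 + δ + i (t + a_n δ))) dt` -/
noncomputable def M (k : ℝ) (δ : ℝ → ℝ) (D : ℝ → Set ℝ) (P : Set ℝ) {n : ℕ} (a : Fin n → ℝ) (F : (Fin n → ℂ) → ℝ) (T : ℝ) : ℝ :=
  (2 * δ T) ^ (k ^ 2) / T * ∫ t in D T ∩ P, F fun j => shifts (δ T) t (a j)

/-- the coefficients -/
lemma dk_lc {k : ℝ} (hk : 0 < k) (m : ℕ) : dk k m = Pool.Agent.H306R2.lc k m := by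
  have hG : Real.Gamma k ≠ 0 := (Real.Gamma_pos_of_pos hk).ne'
  unfold dk
  induction m with
  | zero =>
    unfold Pool.Agent.H306R2.lc
    simp [hG]
  | succ m ih =>
    have h1 : Pool.Agent.H306R2.lc k (m + 1) = Pool.Agent.H306R2.lc k m * ((k + m) / ((m : ℝ) + 1)) := by
      unfold Pool.Agent.H306R2.lc
      rw [Finset.prod_range_succ]
    have hkm : k + (m : ℝ) ≠ 0 := by positivity
    have h2 : Real.Gamma (k + ((m + 1 : ℕ) : ℝ)) = (k + m) * Real.Gamma (k + m) := by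
      rw [← Real.Gamma_add_one hkm]
      congr 1
      push_cast
      ring
    have hf : (m.factorial : ℝ) ≠ 0 := by positivity
    rw [h1, ← ih, h2, Nat.factorial_succ]
    push_cast
    field_simp

/-- the arithmetic factor -/
lemma ak_aF {k : ℝ} (hk : 0 < k) : ak k = Pool.Agent.H306R2.aF k := by
  unfold ak Pool.Agent.H306R2.aF
  refine tprod_congr fun p => ?_
  simp_rw [dk_lc hk, one_div, inv_pow, div_eq_mul_inv]

/-- the field -/
lemma field_fi (k : ℝ) (ω : ℕ → ℝ × ℝ) : field k ω = Pool.Agent.X111.FL.fi k ω := by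
  funext z
  unfold field Pool.Agent.X111.FL.fi Pool.Agent.X111.FL.gf Pool.Agent.X111.JD.nn
  rfl

/-- the shifts -/
lemma shifts_zc (δ t a : ℝ) : shifts δ t a = Pool.Agent.X111.JD.zc δ a t := by
  unfold shifts Pool.Agent.X111.JD.zc
  congr 1
  push_cast
  ring

lemma isTarget_iff (K : Set ℂ) (f : ℂ → ℂ) : IsTarget K f ↔ Pool.Agent.Y834.UT.Tgt K f := by
  constructor
  · rintro ⟨g, h1, h2, h3, h4⟩
    exact ⟨g, h1, h2, h3, h4⟩
  · rintro ⟨g, h1, h2, h3, h4⟩
    exact ⟨g, h1, h2, h3, h4⟩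

lemma isTarget_of_connected {K : Set ℂ} (hK : IsCompact K) (hKc : IsConnected Kᶜ) (f : ℂ → ℂ) :
    IsTarget K f ↔ Good K f := by
  have hh : hull K = K := Pool.Agent.Y834.UT.hull_eq hK hKc
  constructor
  · rintro ⟨g, h1, h2⟩
    rw [hh] at h2
    have h1' : ∀ z ∈ interior K, f z = g z := fun z hz => (h1 z (interior_subset hz)).symm
    refine ⟨h2.cont.congr fun z hz => (h1 z hz).symm, h2.hol.congr h1', fun z hz => ?_⟩
    have hsub : connectedComponentIn (interior K) z ⊆ interior K := connectedComponentIn_subset _ _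
    rcases h2.comp z hz with h | h
    · exact Or.inl fun w hw => by
        rw [h1' w (hsub hw)]
        exact h w hw
    · exact Or.inr fun w hw => by
        rw [h1' w (hsub hw)]
        exact h w hw
  · intro h
    refine ⟨f, fun _ _ => rfl, ?_⟩
    rw [hh]
    exact h

lemma exists_path : ∃ δ : ℝ → ℝ, Tendsto δ atTop (𝓝 0) ∧ Tendsto (fun T : ℝ => δ T * Real.log T) atTop atTop := by
  have h1 : Tendsto (fun T : ℝ => √(Real.log T)) atTop atTop :=
    Real.tendsto_sqrt_atTop.comp Real.tendsto_log_atTop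
  refine ⟨fun T => (√(Real.log T))⁻¹, h1.inv_tendsto_atTop, ?_⟩
  refine h1.congr' ?_
  filter_upwards [eventually_gt_atTop (1 : ℝ)] with T hT
  have hL := Real.log_pos hT
  have h2 : √(Real.log T) ≠ 0 := (Real.sqrt_pos.2 hL).ne'
  field_simp
  rw [Real.sq_sqrt hL.le]

lemma pos_of {δ : ℝ → ℝ} (hδL : Tendsto (fun T : ℝ => δ T * Real.log T) atTop atTop) : ∀ᶠ T in atTop, 0 < δ T := by
  filter_upwards [hδL.eventually_gt_atTop 0, eventually_gt_atTop 1] with T hT hT1
  exact (pos_iff_pos_of_mul_pos hT).mpr (Real.log_pos hT1)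

/-- **Homogeneous functions of shifted values next to the critical line and the values to the right of the line.** -/
theorem result :
    ∃ p : ℝ → Set ℂ → Set (ℂ → ℂ) → ℝ → ℝ,
      -- the means over the sets of ordinates described by the values right of the line
      (∀ (δ : ℝ → ℝ), Tendsto δ atTop (𝓝 0) → Tendsto (fun T : ℝ => δ T * Real.log T) atTop atTop →
        ∀ (c : ℝ), 0 ≤ c → ∀ (B R : Set ℝ), B.Countable → (0 : ℝ) ∈ B → R.Countable → (∀ k ∈ R, 0 < k) →
        ∃ E : ℝ → Set ℝ, (∀ T, MeasurableSet (E T) ∧ ∀ t ∈ E T, 0 ≤ t ∧ t ≤ T ∧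
            ∃ a ∈ B, (δ T) ^ (-(2 + c)) < ‖shifts (δ T) t a‖) ∧
          Tendsto (fun T => (volume (E T)).toReal / (T * (δ T) ^ (4 + 4 * c))) atTop (𝓝 0) ∧
          ∀ k ∈ R, ∀ D : ℝ → Set ℝ, Admissible E c k D →
            ∀ (K : Set ℂ) (A : Set (ℂ → ℂ)), IsCompact K → (∀ z ∈ K, 1 / 2 < z.re ∧ z.re < 1) →
              ∀ ε : ℝ, ContinuousAt (p k K A) ε → ∀ (n : ℕ) (a : Fin n → ℝ), (∀ j, a j ∈ B) →
                ∀ F : (Fin n → ℂ) → ℝ, Continuous F → (∀ (z : ℂ) (v : Fin n → ℂ), F (fun j => z * v j) = ‖z‖ ^ (2 * k) * F v) →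
                Tendsto (M k δ D (S ε K A) a F) atTop
                  (𝓝 (ak k * p k K A ε * ∫ ω, F (fun j => field k ω (Complex.I * (a j : ℂ))) ∂noise))) ∧
      -- the limit functions
      (∀ k : ℝ, 0 < k → 0 < ak k ∧ ∀ (K : Set ℂ) (A : Set (ℂ → ℂ)), Monotone (p k K A) ∧
        {ε | ¬ ContinuousAt (p k K A) ε}.Countable ∧ ∀ ε : ℝ, 0 ≤ p k K A ε ∧ p k K A ε ≤ 1) ∧
      -- universality
      (∀ k : ℝ, 0 < k → ∀ (K : Set ℂ) (f : ℂ → ℂ), IsCompact K → (∀ z ∈ K, 1 / 2 < z.re ∧ z.re < 1) →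
        (IsTarget K f ↔ ∀ ε : ℝ, 0 < ε → 0 < p k K {f} ε)) ∧
      -- for all real orders, lower bounds for the integrals of nonnegative functions over the whole of `[0, T]`
      (∀ (δ : ℝ → ℝ), Tendsto δ atTop (𝓝 0) → Tendsto (fun T : ℝ => δ T * Real.log T) atTop atTop →
        ∀ k : ℝ, 0 < k → ∀ (K : Set ℂ) (A : Set (ℂ → ℂ)), IsCompact K → (∀ z ∈ K, 1 / 2 < z.re ∧ z.re < 1) →
          ∀ ε : ℝ, ContinuousAt (p k K A) ε → ∀ (n : ℕ) (a : Fin n → ℝ) (F : (Fin n → ℂ) → ℝ), Continuous F → (∀ v, 0 ≤ F v) →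
            (∀ (z : ℂ) (v : Fin n → ℂ), F (fun j => z * v j) = ‖z‖ ^ (2 * k) * F v) →
            ∀ m < ak k * p k K A ε * ∫ ω, F (fun j => field k ω (Complex.I * (a j : ℂ))) ∂noise,
              ∀ᶠ T in atTop, m < M k δ (fun T => Icc 0 T) (S ε K A) a F T) ∧
      -- if the complement of `K` is connected, the targets are the good functions on `K`
      (∀ (K : Set ℂ) (f : ℂ → ℂ), IsCompact K → IsConnected Kᶜ → (IsTarget K f ↔ Good K f)) := by
  obtain ⟨Z0, hZ0⟩ := Pool.Agent.X107.MU.exU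
  have haF : ∀ k : ℝ, 0 < k → 0 < Pool.Agent.H306R2.aF k := fun k hk => Pool.Agent.H306R2.aF_pos hk
  have hcat : ∀ k : ℝ, 0 < k → ∀ (K : Set ℂ) (A : Set (ℂ → ℂ)) (ε : ℝ),
      ContinuousAt (fun ε => Pool.Agent.X107.MU.DL k (Z0 k) K A ε / Pool.Agent.H306R2.aF k) ε →
      ContinuousAt (Pool.Agent.X107.MU.DL k (Z0 k) K A) ε := by
    intro k hk K A ε h
    have h1 := h.const_mul (Pool.Agent.H306R2.aF k)
    refine h1.congr (Eventually.of_forall fun x => ?_)
    beta_reduce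
    rw [mul_div_cancel₀ _ (haF k hk).ne']
  have hadm : ∀ {c : ℝ} {E : ℝ → Set ℝ} {k : ℝ} {D : ℝ → Set ℝ}, Admissible E c k D → Pool.Agent.X107.MU.Adm c k E D := by
    intro c E k D hD
    rcases hD with ⟨h1, h2⟩ | ⟨h1, h2⟩
    · refine Or.inl ⟨?_, h2⟩
      rcases h1 with h1 | h1
      · exact Or.inl h1
      · exact Or.inr (by linarith)
    · exact Or.inr ⟨h1, h2⟩
  have hlim : ∀ {k : ℝ}, 0 < k → ∀ (K : Set ℂ) (A : Set (ℂ → ℂ)) (ε : ℝ) {n : ℕ} (a : Fin n → ℝ) (F : (Fin n → ℂ) → ℝ),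
      ak k * (Pool.Agent.X107.MU.DL k (Z0 k) K A ε / Pool.Agent.H306R2.aF k) *
        ∫ ω, F (fun j => field k ω (Complex.I * (a j : ℂ))) ∂noise =
      Pool.Agent.X107.MU.DL k (Z0 k) K A ε * ∫ ω, F (fun j => Pool.Agent.X111.FL.fi k ω (Complex.I * (a j : ℂ))) ∂Pool.Agent.X111.FL.PG := by
    intro k hk K A ε n a F
    rw [ak_aF hk, mul_div_cancel₀ _ (haF k hk).ne']
    simp_rw [field_fi]
    rfl
  have hcase : ∀ k : ℝ, k ≤ 2 ∨ 2 + 2 * (0:ℝ) ≤ k := by
    intro k
    by_cases h : k ≤ 2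
    · exact Or.inl h
    · exact Or.inr (by linarith)
  refine ⟨fun k K A ε => Pool.Agent.X107.MU.DL k (Z0 k) K A ε / Pool.Agent.H306R2.aF k, ?_, ?_, ?_, ?_, ?_⟩
  · intro δ hδ hδL c hc B R hB h0 hR hR0
    obtain ⟨E, hE, hvol, hsys⟩ := hZ0 δ hδ hδL c hc B R hB h0 hR hR0
    refine ⟨E, fun T => ⟨(hE T).1, fun t ht => ⟨((hE T).2.1 ht).1, ((hE T).2.1 ht).2, ?_⟩⟩, hvol, ?_⟩
    · obtain ⟨a, ha, h1⟩ := (hE T).2.2 t ht
      refine ⟨a, ha, ?_⟩
      rw [shifts_zc, Pool.Agent.X111.JD.zc_norm]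
      exact h1
    · intro k hk D hD K A hK hKs ε hε n a ha F hF hom
      have h1 := (hsys k hk D (hadm hD)).2 K A hK hKs ε (hcat k (hR0 k hk) K A ε hε) n a ha F hF hom
      beta_reduce
      rw [hlim (hR0 k hk)]
      refine h1.congr fun T => ?_
      unfold M
      simp_rw [shifts_zc]
      rfl
  · intro k hk
    refine ⟨by rw [ak_aF hk]; exact haF k hk, fun K A => ?_⟩
    have hmono : Monotone fun ε => Pool.Agent.X107.MU.DL k (Z0 k) K A ε / Pool.Agent.H306R2.aF k := fun x y hxy =>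
      div_le_div_of_nonneg_right (Pool.Agent.X107.MU.DL_mono hk (Z0 k) K A hxy) (haF k hk).le
    refine ⟨hmono, hmono.countable_not_continuousAt, fun ε => ⟨div_nonneg
      (Pool.Agent.X107.MU.DL_nonneg hk (Z0 k) K A ε) (haF k hk).le, ?_⟩⟩
    rw [div_le_one (haF k hk), ← Pool.Agent.X107.MU.L1_eq]
    exact Pool.Agent.X107.MU.DL_le hk (Z0 k) K A ε
  · intro k hk K f hK hKs
    rw [isTarget_iff]
    constructor
    · intro h ε hε
      exact div_pos (Pool.Agent.X107.MU.DL_pos hk (Z0 k) hK hKs h hε) (haF k hk)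
    · intro h
      obtain ⟨δ, hδ, hδL⟩ := exists_path
      obtain ⟨E, hE, hvol, hsys⟩ := hZ0 δ hδ hδL 0 le_rfl {0} {k} (countable_singleton 0) (mem_singleton 0) (countable_singleton k)
        (fun r hr => by
          rw [mem_singleton_iff] at hr
          rw [hr]
          exact hk)
      have hs := (hsys k (mem_singleton k) (fun T => Icc 0 T \ E T) (hadm (Or.inl ⟨hcase k, fun _ => rfl⟩))).1
      refine Pool.Agent.X107.MU.tgt_of_DL hk (Z0 k) hK hKs hs fun ε hε => ?_
      have h1 := h ε hε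
      rwa [div_pos_iff_of_pos_right (haF k hk)] at h1
  · intro δ hδ hδL k hk K A hK hKs ε hε n a F hF hF0 hom m hm
    rw [hlim hk] at hm
    obtain ⟨E, hE, hvol, hsys⟩ := hZ0 δ hδ hδL 0 le_rfl (insert 0 (range a)) {k} ((countable_range a).insert 0) (mem_insert _ _)
      (countable_singleton k) (fun r hr => by
        rw [mem_singleton_iff] at hr
        rw [hr]
        exact hk)
    have h1 := (hsys k (mem_singleton k) (fun T => Icc 0 T \ E T) (hadm (Or.inl ⟨hcase k, fun _ => rfl⟩))).2 K A hK hKs ε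
      (hcat k hk K A ε hε) n a (fun j => mem_insert_of_mem _ (mem_range_self j)) F hF hom
    filter_upwards [h1.eventually (lt_mem_nhds hm), pos_of hδL, hδ.eventually (gt_mem_nhds (show (0 : ℝ) < 1 / 2 by norm_num)),
      eventually_gt_atTop (0 : ℝ)] with T t1 t2 t3 t4
    refine t1.trans_le ?_
    unfold M
    simp_rw [shifts_zc]
    refine mul_le_mul_of_nonneg_left ?_ (by positivity)
    have hi : IntegrableOn (fun t : ℝ => F fun j => Pool.Agent.X111.JD.zc (δ T) (a j) t) (Icc 0 T) :=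
      (hF.comp (continuous_pi fun j => Pool.Agent.X111.JD.zc_cont t3 (a j))).continuousOn.integrableOn_compact isCompact_Icc
    exact setIntegral_mono_set (hi.mono_set inter_subset_left) (Eventually.of_forall fun t => hF0 _)
      (Eventually.of_forall fun t (ht : t ∈ (Icc 0 T \ E T) ∩ _) => ⟨ht.1.1, ht.2⟩)
  · exact fun K f hK hKc => isTarget_of_connected hK hKc f

end Pool.Agent.Results.MP_069854_nt.LocalFieldAndUniversality
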