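import Pool.Agent.X111.MM.Fin

set_option autoImplicit false

/-!
MP_069854_nt. Moments of the local moments of zeta next to the critical line, and their transition at `m β² = 1`.
Let `δ(T) → 0`, `δ(T) log T → ∞`, let `β > 0` and `1 < m ≤ 2` be real. If `β m ≤ 2`, then for every `H ≥ 0`
`(2δ)^(m² β²) (1/T) ∫_0^T (∫_{-H}^H |ζ(1/2 + δ + i (t + a δ))|^(2β) da)^m dt → a(β m) Λ(β, m, H)`, with an explicit random
function `f` and `Λ(β, m, H) = E (∫_{-H}^H |f(i a)|^(2β) da)^m`. For `H ≥ 1`, up to constants that depend on `β` and `m`,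
`Λ(β, m, H)` is of the exact order `H^(m + m β² - m² β²)`, if `m β² < 1`, and of the exact order `H`, if `m β² > 1`; for
`m β² = 1` it lies between `H` and `H (1 + log H)`.
-/

open Filter Topology MeasureTheory

namespace Pool.Agent.Results.MP_069854_nt.MomentsOfMoments

/-- The generalised divisor function at a prime power: `d_k(p^m) = Γ(k + m) / (Γ(k) m!)`. -/
noncomputable def dk (k : ℝ) (m : ℕ) : ℝ := Real.Gamma (k + m) / (Real.Gamma k * (m.factorial : ℝ))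

/-- The arithmetic factor `a(k) = ∏_p (1 - 1/p)^(k²) ∑_m d_k(p^m)² p^(-m)`. -/
noncomputable def ak (k : ℝ) : ℝ :=
  ∏' p : Nat.Primes, ((1 - 1 / (p : ℝ)) ^ (k ^ 2) * ∑' m : ℕ, dk k m ^ 2 / (p : ℝ) ^ m)

/-- The centred normal law of variance `1/2`. -/
noncomputable def ga : Measure ℝ := ProbabilityTheory.gaussianReal 0 (1 / 2)

/-- The law of a sequence of independent standard complex Gaussian variables, as pairs of real and imaginary parts. -/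
noncomputable def noise : Measure (ℕ → ℝ × ℝ) := Measure.infinitePi fun _ => ga.prod ga

/-- The limit field `f(z) = (1 + z/2)^(-k) exp(∑_{n ≥ 1} ξ_n w^n / √n)`, `w = z/(z+2)`, `ξ_{n+1} = ω_n`. -/
noncomputable def field (k : ℝ) (ω : ℕ → ℝ × ℝ) (z : ℂ) : ℂ :=
  (1 + z / 2) ^ (-(k : ℂ)) *
    Complex.exp (∑' n : ℕ, (((ω n).1 : ℂ) + (ω n).2 * Complex.I) * ((z / (z + 2)) ^ (n + 1) / (Real.sqrt (n + 1) : ℂ)))

/-- The values of zeta at the shifts: `a ↦ ζ(1/2 + δ + i (t + a δ))`. -/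
noncomputable def shifts (δ t a : ℝ) : ℂ := riemannZeta (1 / 2 + δ + Complex.I * (t + a * δ))

/-- The constant `Λ(β, m, H) = E (∫_{-H}^H |f(i a)|^(2β) da)^m`, `f` the limit field of parameter `k = β m`. -/
noncomputable def Lam (β m H : ℝ) : ℝ :=
  ∫ ω, (∫ a in Set.Icc (-H) H, ‖field (β * m) ω (Complex.I * (a : ℂ))‖ ^ (2 * β)) ^ m ∂noise

/-- the coefficients -/
lemma dk_lc {k : ℝ} (hk : 0 < k) (m : ℕ) : dk k m = Pool.Agent.H306R2.lc k m := by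
  have hG : Real.Gamma k ≠ 0 := (Real.Gamma_pos_of_pos hk).ne'
  unfold dk
  induction m with
  | zero =>
    unfold Pool.Agent.H306R2.lc
    simp [hG]
  | succ m ih =>
    have h1 : Pool.Agent.H306R2.lc k (m + 1) = Pool.Agent.H306R2.lc k m * ((k + m) / ((m : ℝ) + 1)) := by
      unfold Pool.Agent.H306R2.lc
      rw [Finset.prod_range_succ]
    have hkm : k + (m : ℝ) ≠ 0 := by positivity
    have h2 : Real.Gamma (k + ((m + 1 : ℕ) : ℝ)) = (k + m) * Real.Gamma (k + m) := by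
      rw [← Real.Gamma_add_one hkm]
      congr 1
      push_cast
      ring
    have hf : (m.factorial : ℝ) ≠ 0 := by positivity
    rw [h1, ← ih, h2, Nat.factorial_succ]
    push_cast
    field_simp

/-- the arithmetic factor -/
lemma ak_aF {k : ℝ} (hk : 0 < k) : ak k = Pool.Agent.H306R2.aF k := by
  unfold ak Pool.Agent.H306R2.aF
  refine tprod_congr fun p => ?_
  simp_rw [dk_lc hk, one_div, inv_pow, div_eq_mul_inv]

/-- the field -/
lemma field_fi (k : ℝ) (ω : ℕ → ℝ × ℝ) : field k ω = Pool.Agent.X111.FL.fi k ω := by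
  funext z
  unfold field Pool.Agent.X111.FL.fi Pool.Agent.X111.FL.gf Pool.Agent.X111.JD.nn
  rfl

/-- the shifts -/
lemma shifts_jf (δ t a : ℝ) : shifts δ t a = Pool.Agent.X111.FL.jf δ t (Complex.I * a) := by
  unfold shifts Pool.Agent.X111.FL.jf
  congr 1
  ring

/-- the constants -/
lemma Lam_Lm (β m H : ℝ) : Lam β m H = Pool.Agent.X111.MM.Lm β m H := by
  unfold Lam Pool.Agent.X111.MM.Lm
  simp_rw [field_fi]
  rfl

theorem result :
    (∀ β m : ℝ, 0 < β → 1 < m → m ≤ 2 → β * m ≤ 2 → 0 < ak (β * m) ∧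
      ∀ δ : ℝ → ℝ, Tendsto δ atTop (𝓝 0) → Tendsto (fun T : ℝ => δ T * Real.log T) atTop atTop → ∀ H : ℝ, 0 ≤ H →
      Tendsto (fun T : ℝ => (2 * δ T) ^ ((β * m) ^ 2) * (1 / T) * ∫ t in Set.Icc 0 T,
        (∫ a in Set.Icc (-H) H, ‖shifts (δ T) t a‖ ^ (2 * β)) ^ m) atTop (𝓝 (ak (β * m) * Lam β m H))) ∧
    (∀ β m : ℝ, 0 < β → 1 < m → m ≤ 2 →
      (m * β ^ 2 < 1 → ∃ c C : ℝ, 0 < c ∧ 0 < C ∧ ∀ H : ℝ, 1 ≤ H →
        c * H ^ (m + m * β ^ 2 - m ^ 2 * β ^ 2) ≤ Lam β m H ∧ Lam β m H ≤ C * H ^ (m + m * β ^ 2 - m ^ 2 * β ^ 2)) ∧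
      (m * β ^ 2 = 1 → ∃ c C : ℝ, 0 < c ∧ 0 < C ∧ ∀ H : ℝ, 1 ≤ H → c * H ≤ Lam β m H ∧ Lam β m H ≤ C * H * (1 + Real.log H)) ∧
      (1 < m * β ^ 2 → ∃ c C : ℝ, 0 < c ∧ 0 < C ∧ ∀ H : ℝ, 1 ≤ H → c * H ≤ Lam β m H ∧ Lam β m H ≤ C * H)) := by
  refine ⟨fun β m hβ hm1 hm2 hk2 => ?_, fun β m hβ hm1 hm2 => ⟨fun h => ?_, fun h => ?_, fun h => ?_⟩⟩
  · have hm0 : 0 < m := by linarith
    have hk : 0 < β * m := by positivity
    rw [ak_aF hk]
    refine ⟨Pool.Agent.H306R2.aF_pos hk, fun δ hδ hδL H hH => ?_⟩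
    have h1 := Pool.Agent.X111.FL.locmom hk hk2 hδ hδL hH (b := 2 * β) (m := m) (by positivity) hm0 (by ring)
    rw [Lam_Lm]
    simp_rw [mul_one_div, shifts_jf]
    exact h1
  · obtain ⟨c, hc0, hc⟩ := Pool.Agent.X111.MM.lo_top hβ hm1
    obtain ⟨C, hC0, hC⟩ := Pool.Agent.X111.MM.up_sub hβ hm1 hm2 h
    exact ⟨c, C, hc0, hC0, fun H hH => by rw [Lam_Lm]; exact ⟨hc H hH, hC H hH⟩⟩
  · obtain ⟨c, hc0, hc⟩ := Pool.Agent.X111.MM.lo_lin hβ hm1 hm2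
    obtain ⟨C, hC0, hC⟩ := Pool.Agent.X111.MM.up_crit hβ hm1 hm2 h
    exact ⟨c, C, hc0, hC0, fun H hH => by rw [Lam_Lm]; exact ⟨hc H hH, hC H hH⟩⟩
  · obtain ⟨c, hc0, hc⟩ := Pool.Agent.X111.MM.lo_lin hβ hm1 hm2
    obtain ⟨C, hC0, hC⟩ := Pool.Agent.X111.MM.up_sup hβ hm1 hm2 h
    exact ⟨c, C, hc0, hC0, fun H hH => by rw [Lam_Lm]; exact ⟨hc H hH, hC H hH⟩⟩

end Pool.Agent.Results.MP_069854_nt.MomentsOfMoments
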