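import Pool.Agent.X117.Shift3

/-!
# Shifted moments of zeta on the critical line: several shifts, and both signs of the shifted product

Unconditionally: for real `κ` and finitely many real shifts `|x_j| ≤ (log T) ^ (e - 1)` the `t ∈ [T, 2 T]` at which
all `|ζ(1/2 + i (t + x_j))|` have the size `(log T) ^ κ` have measure at least `T (log T) ^ (-κ ^ 2 - ε)`, even with
a prescribed sign of `Z(t - a) Z(t + a)`, `a = α / log T`, `0 < α ≤ ϑ`; the corresponding moments with arbitrary real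
exponents are bounded below. In particular both the positive and the negative part of the integrand of the shifted
moment of the problem have at least the conjectured exponent `k ^ 2`, for odd `k` and small fixed `α`.
-/

open Filter Topology Complex MeasureTheory

namespace Pool.Agent.Results.MP_069854_nt.SignedShiftedProducts

/-- the phase `exp (i ϑ(t))`, with `ϑ(t) = arg Γ(1/4 + i t / 2) - (t / 2) log π` -/
noncomputable def phase (t : ℝ) : ℂ :=
  Gamma (1 / 4 + I * t / 2) / ‖Gamma (1 / 4 + I * t / 2)‖ * cexp (-(I * (t / 2) * Real.log Real.pi))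

/-- Hardy's function `Z(t) = exp (i ϑ(t)) ζ(1/2 + i t)`; the product is real, see `Z_eq` -/
noncomputable def Z (t : ℝ) : ℝ := (phase t * riemannZeta (1 / 2 + I * t)).re

theorem Z_eq (t : ℝ) : ((Z t : ℝ) : ℂ) = phase t * riemannZeta (1 / 2 + I * t) :=
  Pool.Agent.X117.HZ.Z_eq t

theorem abs_Z (t : ℝ) : |Z t| = ‖riemannZeta (1 / 2 + I * t)‖ := Pool.Agent.X117.HZ.abs_Z t

/-- the `t ∈ [T, 2 T]` with `σ Z(t - a) Z(t + a) > 0` -/
def ofSign (σ a T : ℝ) : Set ℝ := {t : ℝ | T ≤ t ∧ t ≤ 2 * T ∧ 0 < σ * (Z (t - a) * Z (t + a))}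

/-- the `t ∈ ofSign σ a T` with `(log T) ^ (κ - ε) ≤ |Z(t + x_j)| ≤ (log T) ^ (κ + ε)` for all `j` -/
def near (n : ℕ) (x : Fin n → ℝ) (κ ε σ a T : ℝ) : Set ℝ :=
  {t : ℝ | t ∈ ofSign σ a T ∧ ∀ j, Real.log T ^ (κ - ε) ≤ |Z (t + x j)| ∧ |Z (t + x j)| ≤ Real.log T ^ (κ + ε)}

/-- the integral of `∏ |Z(t + x_j)| ^ (p_j)` over `ofSign σ a T` -/
noncomputable def moment (n : ℕ) (x p : Fin n → ℝ) (σ a T : ℝ) : ENNReal :=
  ∫⁻ t in ofSign σ a T, ENNReal.ofReal (∏ j, |Z (t + x j)| ^ (p j))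

/-- the integrand of the shifted moment `Q_k(α, T)` of the problem, turned by `exp (i k α)` -/
noncomputable def turned (k : ℕ) (α T t : ℝ) : ℂ :=
  cexp (I * k * α) * (riemannZeta (1 / 2 + I * α / Real.log T + I * t) ^ k *
    riemannZeta (1 / 2 + I * α / Real.log T - I * t) ^ k)

/-- the part of sign `σ` of the turned integrand, integrated over `[0, T]` -/
noncomputable def part (σ : ℝ) (k : ℕ) (α T : ℝ) : ENNReal :=
  ∫⁻ t in {t : ℝ | 0 ≤ t ∧ t ≤ T ∧ 0 < σ * (turned k α T t).re}, ENNReal.ofReal |(turned k α T t).re|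

lemma Z_cont : Continuous Z := Pool.Agent.X117.HZ.Z_cont

lemma zeta_ne (t : ℝ) (h : Z t ≠ 0) : 0 < |Z t| := abs_pos.mpr h

lemma ofSign_meas (σ a T : ℝ) : MeasurableSet (ofSign σ a T) := by
  have h1 : Continuous fun t => Z (t - a) := Z_cont.comp (continuous_id.sub continuous_const)
  have h2 : Continuous fun t => Z (t + a) := Z_cont.comp (continuous_id.add continuous_const)
  have h : ofSign σ a T = Set.Icc T (2 * T) ∩ {t | 0 < σ * (Z (t - a) * Z (t + a))} := by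
    ext t
    simp [ofSign, and_assoc]
  rw [h]
  exact measurableSet_Icc.inter (isOpen_lt continuous_const (continuous_const.mul (h1.mul h2))).measurableSet

lemma shift_cont (x : ℝ) : Continuous fun t => |Z (t + x)| :=
  continuous_abs.comp (Z_cont.comp (continuous_id.add continuous_const))

lemma near_meas (n : ℕ) (x : Fin n → ℝ) (κ ε σ a T : ℝ) : MeasurableSet (near n x κ ε σ a T) := by
  have h : near n x κ ε σ a T = ofSign σ a T ∩ ⋂ j, ({t | Real.log T ^ (κ - ε) ≤ |Z (t + x j)|} ∩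
      {t | |Z (t + x j)| ≤ Real.log T ^ (κ + ε)}) := by
    ext t
    simp [near]
  rw [h]
  refine (ofSign_meas σ a T).inter (MeasurableSet.iInter fun j => ?_)
  exact (isClosed_le continuous_const (shift_cont _)).measurableSet.inter
    (isClosed_le (shift_cont _) continuous_const).measurableSet

lemma near_sub (n : ℕ) (x : Fin n → ℝ) (κ ε σ a T : ℝ) : near n x κ ε σ a T ⊆ ofSign σ a T := fun _ h => h.1

lemma near_fin (n : ℕ) (x : Fin n → ℝ) (κ ε σ a T : ℝ) : volume (near n x κ ε σ a T) ≠ ⊤ := by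
  have h : near n x κ ε σ a T ⊆ Set.Icc T (2 * T) := fun t ht => ⟨ht.1.1, ht.1.2.1⟩
  exact (measure_lt_top_of_subset h (by rw [Real.volume_Icc]; exact ENNReal.ofReal_ne_top)).ne

lemma near_ge : ∃ ϑ : ℝ, 0 < ϑ ∧ ϑ ≤ 1 ∧ ∀ κ ε α₀ : ℝ, 0 < ε → 0 < α₀ → ∀ n : ℕ,
    ∃ e : ℝ, 0 < e ∧ e ≤ ε ∧ ∀ᶠ T : ℝ in atTop, ∀ x : Fin n → ℝ, (∀ j, |x j| ≤ Real.log T ^ (e - 1)) →
      ∀ σ a : ℝ, (σ = 1 ∨ σ = -1) → α₀ / Real.log T ≤ a → a ≤ ϑ / Real.log T →
      T * Real.log T ^ (-κ ^ 2 - ε) ≤ volume.real (near n x κ ε σ a T) := by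
  obtain ⟨ϑ, h1, h2, h⟩ := Pool.Agent.X117.SHF.shifted
  refine ⟨ϑ, h1, h2, fun κ ε α₀ hε hα₀ n => ?_⟩
  obtain ⟨e, he, he1, h⟩ := h κ ε α₀ hε hα₀ n
  refine ⟨e, he, he1, ?_⟩
  filter_upwards [h, Real.tendsto_log_atTop.eventually_gt_atTop 0] with T hT hL0 x hx σ a hσ ha1 ha2
  refine (hT x hx σ a hσ ha1 ha2).trans ?_
  refine ENNReal.toReal_mono (near_fin n x κ ε σ a T) (measure_mono_ae ?_)
  filter_upwards [Pool.Agent.X117.SHF.many_ae n (κ := κ) (ε := ε) hL0 x σ a] with t ht hm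
  exact ht hm

/-- a power of a number between two powers -/
lemma rpow_ge2 {L y κ e p : ℝ} (hL : 1 ≤ L) (h1 : L ^ (κ - e) ≤ y) (h2 : y ≤ L ^ (κ + e)) :
    L ^ (κ * p - |p| * e) ≤ y ^ p := by
  have hL0 : 0 < L := by linarith
  have hy0 : 0 < y := lt_of_lt_of_le (Real.rpow_pos_of_pos hL0 _) h1
  rcases le_or_gt 0 p with hk | hk
  · have h3 := Real.rpow_le_rpow (by positivity) h1 hk
    rw [← Real.rpow_mul hL0.le] at h3
    refine le_trans (le_of_eq ?_) h3
    congr 1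
    rw [abs_of_nonneg hk]
    ring
  · have h3 := Real.rpow_le_rpow_of_nonpos hy0 h2 hk.le
    rw [← Real.rpow_mul hL0.le] at h3
    refine le_trans (le_of_eq ?_) h3
    congr 1
    rw [abs_of_neg hk]
    ring

lemma prod_ge {L κ e : ℝ} (hL : 1 ≤ L) {n : ℕ} {p y : Fin n → ℝ} (h : ∀ j, L ^ (κ - e) ≤ y j ∧ y j ≤ L ^ (κ + e)) :
    L ^ (κ * ∑ j, p j - e * ∑ j, |p j|) ≤ ∏ j, y j ^ p j := by
  have hL0 : 0 < L := by linarith
  have h1 : L ^ (κ * ∑ j, p j - e * ∑ j, |p j|) = ∏ j, L ^ (κ * p j - |p j| * e) := by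
    rw [← Real.rpow_sum_of_pos hL0]
    congr 1
    rw [Finset.mul_sum, Finset.mul_sum, ← Finset.sum_sub_distrib]
    exact Finset.sum_congr rfl fun j _ => by ring
  rw [h1]
  exact Finset.prod_le_prod (fun j _ => by positivity) fun j _ => rpow_ge2 hL (h j).1 (h j).2

/-- from the values to the moments -/
lemma lint_ge {n : ℕ} {x p : Fin n → ℝ} {η σ a T : ℝ} {κ : ℝ} (hT1 : 1 ≤ T) (hL : 1 ≤ Real.log T)
    (hκ : 2 * κ = ∑ j, p j) (hT : T * Real.log T ^ (-κ ^ 2 - η) ≤ volume.real (near n x κ η σ a T)) :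
    ENNReal.ofReal (T * Real.log T ^ (κ ^ 2 - η * (1 + ∑ j, |p j|))) ≤
      ∫⁻ t in near n x κ η σ a T, ENNReal.ofReal (∏ j, |Z (t + x j)| ^ (p j)) := by
  have hT0 : 0 < T := by linarith
  have hL0 : 0 < Real.log T := by linarith
  have h1 : ∫⁻ _ in near n x κ η σ a T, ENNReal.ofReal (Real.log T ^ (κ * ∑ j, p j - η * ∑ j, |p j|)) ≤
      ∫⁻ t in near n x κ η σ a T, ENNReal.ofReal (∏ j, |Z (t + x j)| ^ (p j)) := by
    refine setLIntegral_mono' (near_meas n x κ η σ a T) fun t ht => ?_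
    exact ENNReal.ofReal_le_ofReal (prod_ge hL ht.2)
  rw [setLIntegral_const] at h1
  refine le_trans ?_ h1
  have h5 : volume (near n x κ η σ a T) = ENNReal.ofReal (volume.real (near n x κ η σ a T)) :=
    (ENNReal.ofReal_toReal (near_fin n x κ η σ a T)).symm
  rw [h5, ← ENNReal.ofReal_mul (by positivity)]
  refine ENNReal.ofReal_le_ofReal ?_
  refine le_trans (le_of_eq ?_) (mul_le_mul_of_nonneg_left hT (by positivity))
  rw [mul_left_comm, ← Real.rpow_add hL0, ← hκ]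
  congr 2
  ring

lemma eta {s : ℝ} (hs : 0 ≤ s) {ε : ℝ} (hε : 0 < ε) : ∃ η : ℝ, 0 < η ∧ η * (1 + s) = ε :=
  ⟨ε / (1 + s), by positivity, by field_simp⟩

/-- the integrand of the problem in terms of Hardy's function -/
lemma turned_eq (k : ℕ) (α T t : ℝ) : turned k α T t =
    (((Z (t + α / Real.log T) * Z (t - α / Real.log T)) ^ k : ℝ) : ℂ) *
      (cexp (I * α) * ((starRingEnd ℂ) (phase (t + α / Real.log T)) * phase (t - α / Real.log T))) ^ k := by
  set a : ℝ := α / Real.log T with ha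
  have hac : (I * α / Real.log T : ℂ) = I * (a : ℂ) := by
    rw [ha]; push_cast; ring
  have h1 : (1 / 2 + I * α / Real.log T + I * t : ℂ) = 1 / 2 + I * ((t + a : ℝ) : ℂ) := by
    rw [hac]; push_cast; ring
  have h2 : (1 / 2 + I * α / Real.log T - I * t : ℂ) = (starRingEnd ℂ) (1 / 2 + I * ((t - a : ℝ) : ℂ)) := by
    rw [hac, map_add, map_mul, Complex.conj_I, Complex.conj_ofReal]
    have : (starRingEnd ℂ) (1 / 2 : ℂ) = 1 / 2 := by
      rw [map_div₀, map_one, map_ofNat]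
    rw [this]
    push_cast
    ring
  have hph : ∀ u : ℝ, (starRingEnd ℂ) (phase u) * phase u = 1 := by
    intro u
    have h := Pool.Agent.X117.HZ.phase_norm u
    have h' : ‖phase u‖ = 1 := h
    rw [mul_comm, Complex.mul_conj, Complex.normSq_eq_norm_sq, h']
    simp
  have hz1 : ∀ u : ℝ, riemannZeta (1 / 2 + I * (u : ℂ)) = (Z u : ℂ) * (starRingEnd ℂ) (phase u) := by
    intro u
    rw [Z_eq, mul_comm (phase u), mul_assoc, mul_comm (phase u), hph, mul_one]
  have hz2 : riemannZeta (1 / 2 + I * α / Real.log T - I * t) = (Z (t - a) : ℂ) * phase (t - a) := by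
    rw [h2, riemannZeta_conj, hz1, map_mul, Complex.conj_ofReal, Complex.conj_conj]
  unfold turned
  rw [hz2, h1, hz1 (t + a)]
  have h3 : cexp (I * k * α) = cexp (I * α) ^ k := by
    rw [← Complex.exp_nat_mul]
    congr 1
    ring
  rw [h3]
  push_cast
  ring

/-- both parts of the turned integrand -/
lemma part_ge : ∃ ϑ : ℝ, 0 < ϑ ∧ ϑ ≤ 1 ∧ ∀ (k : ℕ) (α ε σ : ℝ), 0 < α → α ≤ ϑ → 0 < ε →
    (σ = 1 ∨ (σ = -1 ∧ Odd k)) → ∀ᶠ T : ℝ in atTop,
      ENNReal.ofReal (T * Real.log T ^ ((k : ℝ) ^ 2 - ε)) ≤ part σ k α T := by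
  obtain ⟨ϑ, h1, h2, h⟩ := near_ge
  refine ⟨ϑ, h1, h2, fun k α ε σ hα hα1 hε hσ => ?_⟩
  have hσ' : σ = 1 ∨ σ = -1 := by rcases hσ with h | h; exacts [Or.inl h, Or.inr h.1]
  obtain ⟨η, hη, hηε⟩ := eta (s := (k : ℝ) + k) (by positivity) (show 0 < ε / 2 by positivity)
  obtain ⟨e, he, he1, h⟩ := h k η (α / 2) hη (by positivity) 2
  -- the window `[S, 2 S]`, `T = 2 S`
  have hdbl : Tendsto (fun T : ℝ => T / 2) atTop atTop := tendsto_id.atTop_div_const (by norm_num)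
  have hLε : Tendsto (fun S : ℝ => Real.log S ^ (ε / 2)) atTop atTop :=
    (tendsto_rpow_atTop (by positivity)).comp Real.tendsto_log_atTop
  have hLe : Tendsto (fun S : ℝ => Real.log S ^ e) atTop atTop :=
    (tendsto_rpow_atTop he).comp Real.tendsto_log_atTop
  have key : ∀ᶠ S : ℝ in atTop, ENNReal.ofReal (2 * S * Real.log (2 * S) ^ ((k : ℝ) ^ 2 - ε)) ≤
      part σ k α (2 * S) := by
    have hpp := Pool.Agent.X117.SHF.phase_pair (α := α) (η := 1 / (2 * (k + 1))) hα (by linarith) (by positivity)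
    filter_upwards [h, hpp, hLε.eventually_ge_atTop (4 * 2 ^ ((k : ℝ) ^ 2 + ε)), hLe.eventually_ge_atTop 1,
      Real.tendsto_log_atTop.eventually_ge_atTop 1, eventually_ge_atTop 10] with S hS hpS hS2 hSe hL hS10
    have hS0 : 0 < S := by linarith
    have hL0 : 0 < Real.log S := by linarith
    set M := Real.log (2 * S) with hM
    have hMS : M = Real.log 2 + Real.log S := by rw [hM, Real.log_mul (by norm_num) hS0.ne']
    have hlog2 : Real.log 2 ≤ 1 := by linarith [Real.log_two_lt_d9]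
    have hlog20 : 0 ≤ Real.log 2 := by linarith [Real.log_two_gt_d9]
    have hM1 : Real.log S ≤ M := by linarith
    have hM2 : M ≤ 2 * Real.log S := by linarith
    have hM0 : 0 < M := by linarith
    set a : ℝ := α / M with ha
    have ha0 : 0 < a := by positivity
    have ha1 : α / 2 / Real.log S ≤ a := by
      rw [ha, div_div]
      exact div_le_div_of_nonneg_left hα.le hM0 hM2
    have ha2 : a ≤ ϑ / Real.log S := by
      rw [ha]
      exact div_le_div₀ h1.le hα1 hL0 hM1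
    have hax : |a| ≤ Real.log S ^ (e - 1) := by
      rw [abs_of_pos ha0]
      refine ha2.trans ?_
      rw [Real.rpow_sub hL0, Real.rpow_one]
      gcongr
      linarith
    set x : Fin 2 → ℝ := ![a, -a] with hx
    set p : Fin 2 → ℝ := ![(k : ℝ), (k : ℝ)] with hp
    have hS := hS x (by
      intro j
      fin_cases j
      · simpa [hx] using hax
      · simpa [hx] using hax) σ a hσ' ha1 ha2
    have hlg := lint_ge (n := 2) (x := x) (p := p) (η := η) (σ := σ) (a := a) (T := S) (κ := k)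
      (by linarith) hL (by simp [hp]; ring) hS
    have hps : ∑ j, |p j| = (k : ℝ) + k := by simp [hp]
    rw [hps, hηε] at hlg
    have hprod : ∀ t : ℝ, ∏ j, |Z (t + x j)| ^ (p j) = |Z (t + a) * Z (t - a)| ^ k := by
      intro t
      rw [Fin.prod_univ_two]
      simp only [hx, hp, Matrix.cons_val_zero, Matrix.cons_val_one]
      rw [Real.rpow_natCast, Real.rpow_natCast, ← mul_pow, ← abs_mul]
      rfl
    simp_rw [hprod] at hlg
    -- the comparison with the turned integrand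
    have hcmp : ∀ t ∈ near 2 x k η σ a S, 0 < σ * (turned k α (2 * S) t).re ∧
        1 / 2 * |Z (t + a) * Z (t - a)| ^ k ≤ |(turned k α (2 * S) t).re| := by
      rintro t ⟨⟨t1, t2, t3⟩, -⟩
      have ht := hpS t t1 t2
      rw [turned_eq, ← hM, ← ha, Complex.re_ofReal_mul]
      set w : ℂ := cexp (I * α) * ((starRingEnd ℂ) (phase (t + a)) * phase (t - a)) with hw
      have hwn : ‖w‖ = 1 := by
        have h3 : ∀ u : ℝ, ‖phase u‖ = 1 := Pool.Agent.X117.HZ.phase_norm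
        rw [hw, norm_mul, norm_mul, Complex.norm_conj, h3, h3, mul_comm I (α : ℂ),
          Complex.norm_exp_ofReal_mul_I]
        norm_num
      have hwk := Pool.Agent.X117.SHF.pow_near_one hwn k
      have ht' : ‖w - 1‖ ≤ 1 / (2 * (k + 1)) := ht
      have hwk2 : ‖w ^ k - 1‖ ≤ 1 / 2 := by
        refine hwk.trans ?_
        calc (k : ℝ) * ‖w - 1‖ ≤ k * (1 / (2 * (k + 1))) := by gcongr
          _ ≤ 1 / 2 := by
            rw [mul_one_div, div_le_div_iff₀ (by positivity) (by norm_num)]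
            linarith
      have hre : 1 / 2 ≤ (w ^ k).re := by
        have h3 := Complex.abs_re_le_norm (w ^ k - 1)
        rw [Complex.sub_re, Complex.one_re] at h3
        have h4 := abs_le.mp (h3.trans hwk2)
        linarith [h4.1]
      have h5 : 0 < σ * (Z (t + a) * Z (t - a)) := by
        rw [mul_comm (Z (t + a))]; exact t3
      have h6 : 0 < σ * (Z (t + a) * Z (t - a)) ^ k := by
        rcases hσ with rfl | ⟨rfl, hk⟩
        · rw [one_mul] at h5 ⊢
          positivity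
        · have h7 : Z (t + a) * Z (t - a) < 0 := by linarith
          have := hk.pow_neg h7
          linarith
      refine ⟨?_, ?_⟩
      · rw [← mul_assoc]
        exact mul_pos h6 (by linarith)
      · have h9 : |(Z (t + a) * Z (t - a)) ^ k * (w ^ k).re| = |Z (t + a) * Z (t - a)| ^ k * (w ^ k).re := by
          rw [abs_mul ((Z (t + a) * Z (t - a)) ^ k), abs_pow, abs_of_pos (show 0 < (w ^ k).re by linarith)]
        rw [h9, mul_comm (1 / 2 : ℝ)]
        exact mul_le_mul_of_nonneg_left hre (by positivity)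
    have hsub : near 2 x k η σ a S ⊆ {t : ℝ | 0 ≤ t ∧ t ≤ 2 * S ∧ 0 < σ * (turned k α (2 * S) t).re} := by
      intro t ht
      exact ⟨by linarith [ht.1.1], ht.1.2.1, (hcmp t ht).1⟩
    have hfin : ENNReal.ofReal (1 / 2) * ∫⁻ t in near 2 x k η σ a S, ENNReal.ofReal (|Z (t + a) * Z (t - a)| ^ k) ≤
        part σ k α (2 * S) := by
      rw [← lintegral_const_mul' _ _ ENNReal.ofReal_ne_top]
      refine le_trans ?_ (lintegral_mono_set hsub)
      refine setLIntegral_mono' (near_meas 2 x k η σ a S) fun t ht => ?_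
      rw [← ENNReal.ofReal_mul (by norm_num)]
      exact ENNReal.ofReal_le_ofReal (hcmp t ht).2
    refine le_trans ?_ hfin
    refine le_trans ?_ (mul_le_mul_right hlg _)
    rw [← ENNReal.ofReal_mul (by norm_num)]
    refine ENNReal.ofReal_le_ofReal ?_
    -- the powers of the logarithms
    have h8 : M ^ ((k : ℝ) ^ 2 - ε) ≤ 2 ^ ((k : ℝ) ^ 2 + ε) * Real.log S ^ ((k : ℝ) ^ 2 - ε) := by
      rcases le_or_gt 0 ((k : ℝ) ^ 2 - ε) with h9 | h9
      · calc M ^ ((k : ℝ) ^ 2 - ε) ≤ (2 * Real.log S) ^ ((k : ℝ) ^ 2 - ε) := by gcongr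
          _ = 2 ^ ((k : ℝ) ^ 2 - ε) * Real.log S ^ ((k : ℝ) ^ 2 - ε) := Real.mul_rpow (by norm_num) hL0.le
          _ ≤ _ := by
            gcongr ?_ * _
            exact Real.rpow_le_rpow_of_exponent_le (by norm_num) (by linarith)
      · calc M ^ ((k : ℝ) ^ 2 - ε) ≤ Real.log S ^ ((k : ℝ) ^ 2 - ε) :=
            Real.rpow_le_rpow_of_nonpos hL0 hM1 h9.le
          _ ≤ _ := le_mul_of_one_le_left (by positivity) (Real.one_le_rpow (by norm_num) (by positivity))
    have h10 : Real.log S ^ ((k : ℝ) ^ 2 - ε / 2) = Real.log S ^ (ε / 2) * Real.log S ^ ((k : ℝ) ^ 2 - ε) := by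
      rw [← Real.rpow_add hL0]
      congr 1
      ring
    rw [h10]
    have h11 : 0 ≤ Real.log S ^ ((k : ℝ) ^ 2 - ε) := by positivity
    calc 2 * S * M ^ ((k : ℝ) ^ 2 - ε) ≤ 2 * S * (2 ^ ((k : ℝ) ^ 2 + ε) * Real.log S ^ ((k : ℝ) ^ 2 - ε)) := by gcongr
      _ = 1 / 2 * (S * ((4 * 2 ^ ((k : ℝ) ^ 2 + ε)) * Real.log S ^ ((k : ℝ) ^ 2 - ε))) := by ring
      _ ≤ 1 / 2 * (S * (Real.log S ^ (ε / 2) * Real.log S ^ ((k : ℝ) ^ 2 - ε))) := by gcongr
  have h3 := hdbl.eventually key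
  filter_upwards [h3] with T hT
  have e1 : 2 * (T / 2) = T := by ring
  rw [e1] at hT
  exact hT

/-- **shifted moments with several shifts and with a prescribed sign of the shifted product** -/
theorem result : ∃ ϑ : ℝ, 0 < ϑ ∧
    -- (1) values of size `(log T) ^ κ` at several points, with the sign `σ` of `Z(t - a) Z(t + a)`
    (∀ κ ε α₀ : ℝ, 0 < ε → 0 < α₀ → ∀ n : ℕ, ∃ e T₀ : ℝ, 0 < e ∧ ∀ T : ℝ, T₀ ≤ T → ∀ x : Fin n → ℝ,
      (∀ j, |x j| ≤ Real.log T ^ (e - 1)) → ∀ σ a : ℝ, (σ = 1 ∨ σ = -1) → α₀ / Real.log T ≤ a →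
      a ≤ ϑ / Real.log T → T * Real.log T ^ (-κ ^ 2 - ε) ≤ volume.real (near n x κ ε σ a T)) ∧
    -- (2) moments with real exponents
    (∀ ε α₀ : ℝ, 0 < ε → 0 < α₀ → ∀ (n : ℕ) (p : Fin n → ℝ), ∃ e T₀ : ℝ, 0 < e ∧ ∀ T : ℝ, T₀ ≤ T →
      ∀ x : Fin n → ℝ, (∀ j, |x j| ≤ Real.log T ^ (e - 1)) → ∀ σ a : ℝ, (σ = 1 ∨ σ = -1) →
      α₀ / Real.log T ≤ a → a ≤ ϑ / Real.log T →
      ENNReal.ofReal (T * Real.log T ^ (((∑ j, p j) / 2) ^ 2 - ε)) ≤ moment n x p σ a T) ∧
    -- (3) the parts of each sign of the turned integrand of the problem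
    (∀ (k : ℕ) (α ε σ : ℝ), 0 < α → α ≤ ϑ → 0 < ε → (σ = 1 ∨ (σ = -1 ∧ Odd k)) → ∃ T₀ : ℝ, ∀ T : ℝ, T₀ ≤ T →
      ENNReal.ofReal (T * Real.log T ^ ((k : ℝ) ^ 2 - ε)) ≤ part σ k α T) := by
  obtain ⟨ϑ₁, h1, h2, h⟩ := near_ge
  obtain ⟨ϑ₂, h3, h4, h'⟩ := part_ge
  refine ⟨min ϑ₁ ϑ₂, lt_min h1 h3, ?_, ?_, ?_⟩
  · intro κ ε α₀ hε hα₀ n
    obtain ⟨e, he, -, h⟩ := h κ ε α₀ hε hα₀ n
    obtain ⟨T₀, hT₀⟩ := Filter.eventually_atTop.mp (h.and (Real.tendsto_log_atTop.eventually_gt_atTop 0))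
    refine ⟨e, T₀, he, fun T hT x hx σ a hσ ha1 ha2 => ?_⟩
    obtain ⟨q1, q2⟩ := hT₀ T hT
    exact q1 x hx σ a hσ ha1 (ha2.trans (by gcongr; exact min_le_left _ _))
  · intro ε α₀ hε hα₀ n p
    obtain ⟨η, hη, hηε⟩ := eta (s := ∑ j, |p j|) (Finset.sum_nonneg fun j _ => abs_nonneg _) hε
    obtain ⟨e, he, -, h⟩ := h ((∑ j, p j) / 2) η α₀ hη hα₀ n
    obtain ⟨T₀, hT₀⟩ := Filter.eventually_atTop.mp ((h.and
      (Real.tendsto_log_atTop.eventually_ge_atTop 1)).and (eventually_ge_atTop 1))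
    refine ⟨e, T₀, he, fun T hT x hx σ a hσ ha1 ha2 => ?_⟩
    obtain ⟨⟨q1, q2⟩, q3⟩ := hT₀ T hT
    have hL0 : 0 < Real.log T := by linarith
    have q4 := q1 x hx σ a hσ ha1 (ha2.trans (by gcongr; exact min_le_left _ _))
    have q5 := lint_ge (x := x) (p := p) q3 q2 (by ring) q4
    rw [hηε] at q5
    exact q5.trans (lintegral_mono_set (near_sub _ _ _ _ _ _ _))
  · intro k α ε σ hα hα1 hε hσ
    exact Filter.eventually_atTop.mp (h' k α ε σ hα (hα1.trans (min_le_right _ _)) hε hσ)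

end Pool.Agent.Results.MP_069854_nt.SignedShiftedProducts
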