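import Pool.Agent.X111.HP.Fin

set_option autoImplicit false

/-!
MP_069854_nt. The moments `∫ |ζ(1/2 + δ + it)|^(2k) dt`, `0 < k ≤ 2`, restricted to the heights `t` near which a linear combination
`∑_j c_j δ^j ζ^(j)` of derivatives of zeta has a zero, at the distance `δ` of the critical line, where `δ → 0`, `δ log T → ∞`.

With `f` the limit field of the shifted moments, the restricted moment, divided by `T (2δ)^(-k²)`, is asymptotically at most
`a(k) P(∑ c_j f^(j) has a zero in Q)` for a compact set `Q` of the half plane `Re z > -1`, and asymptotically at least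
`a(k) P(∑ c_j f^(j) has a zero in U)` for a bounded open set `U`; here the zeros of the form of zeta are those in `1/2 + δ + it + δ Q`.

* For `ζ` itself the limit is `0`: zeros of zeta at the distance `δ` of the line do not contribute to the moments.
* For `δ ζ' = a ζ`, in particular for the zeros of `ζ'`, the probabilities are positive for every nonempty open set and less than `1` for every
  compact set, and the solutions in the limit are those of `∑ √(n+1) ξ_(n+1) w^n = ((z+2)² a + k (z+2))/2`, `w = z/(z+2)`.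
-/

open Filter Topology MeasureTheory

namespace Pool.Agent.Results.MP_069854_nt.ZerosOfDerivatives

/-- The generalised divisor function at a prime power: `d_k(p^m) = Γ(k + m) / (Γ(k) m!)`. -/
noncomputable def dk (k : ℝ) (m : ℕ) : ℝ := Real.Gamma (k + m) / (Real.Gamma k * (m.factorial : ℝ))

/-- The arithmetic factor `a(k) = ∏_p (1 - 1/p)^(k²) ∑_m d_k(p^m)² p^(-m)`. -/
noncomputable def ak (k : ℝ) : ℝ :=
  ∏' p : Nat.Primes, ((1 - 1 / (p : ℝ)) ^ (k ^ 2) * ∑' m : ℕ, dk k m ^ 2 / (p : ℝ) ^ m)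

/-- The centred normal law of variance `1/2`. -/
noncomputable def ga : Measure ℝ := ProbabilityTheory.gaussianReal 0 (1 / 2)

/-- The law of a sequence of independent standard complex Gaussian variables, as pairs of real and imaginary parts. -/
noncomputable def noise : Measure (ℕ → ℝ × ℝ) := Measure.infinitePi fun _ => ga.prod ga

/-- The limit field `f(z) = (1 + z/2)^(-k) exp(∑_{n ≥ 1} ξ_n w^n / √n)`, `w = z/(z+2)`, `ξ_{n+1} = ω_n`. -/
noncomputable def field (k : ℝ) (ω : ℕ → ℝ × ℝ) (z : ℂ) : ℂ :=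
  (1 + z / 2) ^ (-(k : ℂ)) *
    Complex.exp (∑' n : ℕ, (((ω n).1 : ℂ) + (ω n).2 * Complex.I) * ((z / (z + 2)) ^ (n + 1) / (Real.sqrt (n + 1) : ℂ)))

/-- The heights `t` for which `∑_{j<N} c_j δ^j ζ^(j)` has a zero in `1/2 + δ + it + δ Q`. -/
def zset (c : ℕ → ℂ) (N : ℕ) (Q : Set ℂ) (δ : ℝ) : Set ℝ :=
  {t | ∃ z ∈ Q, ∑ j ∈ Finset.range N, c j * ((δ : ℂ) ^ j * iteratedDeriv j riemannZeta (1 / 2 + δ + Complex.I * t + δ * z)) = 0}

/-- The event that `∑_{j<N} c_j f^(j)` has a zero in `Q`. -/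
def event (k : ℝ) (c : ℕ → ℂ) (N : ℕ) (Q : Set ℂ) : Set (ℕ → ℝ × ℝ) :=
  {ω | ∃ z ∈ Q, ∑ j ∈ Finset.range N, c j * iteratedDeriv j (field k ω) z = 0}

/-- The restricted moment `(2δ)^(k²) (1/T) ∫_{t ∈ [0,T] ∩ A} |ζ(1/2 + δ + it)|^(2k) dt`. -/
noncomputable def rmom (k δ T : ℝ) (A : Set ℝ) : ℝ :=
  (2 * δ) ^ (k ^ 2) * (1 / T) * ∫ t in Set.Icc 0 T ∩ A, ‖riemannZeta (1 / 2 + δ + Complex.I * t)‖ ^ (2 * k)

/-- The coefficients of the form `δ ζ' - a ζ` (with `N = 2`). -/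
def first (a : ℂ) (j : ℕ) : ℂ := if j = 0 then -a else 1

/-- the coefficients -/
lemma dk_lc {k : ℝ} (hk : 0 < k) (m : ℕ) : dk k m = Pool.Agent.H306R2.lc k m := by
  have hG : Real.Gamma k ≠ 0 := (Real.Gamma_pos_of_pos hk).ne'
  unfold dk
  induction m with
  | zero =>
    unfold Pool.Agent.H306R2.lc
    simp [hG]
  | succ m ih =>
    have h1 : Pool.Agent.H306R2.lc k (m + 1) = Pool.Agent.H306R2.lc k m * ((k + m) / ((m : ℝ) + 1)) := by
      unfold Pool.Agent.H306R2.lc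
      rw [Finset.prod_range_succ]
    have hkm : k + (m : ℝ) ≠ 0 := by positivity
    have h2 : Real.Gamma (k + ((m + 1 : ℕ) : ℝ)) = (k + m) * Real.Gamma (k + m) := by
      rw [← Real.Gamma_add_one hkm]
      congr 1
      push_cast
      ring
    have hf : (m.factorial : ℝ) ≠ 0 := by positivity
    rw [h1, ← ih, h2, Nat.factorial_succ]
    push_cast
    field_simp

/-- the arithmetic factor -/
lemma ak_aF {k : ℝ} (hk : 0 < k) : ak k = Pool.Agent.H306R2.aF k := by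
  unfold ak Pool.Agent.H306R2.aF
  refine tprod_congr fun p => ?_
  simp_rw [dk_lc hk, one_div, inv_pow, div_eq_mul_inv]

/-- the field -/
lemma field_fi (k : ℝ) (ω : ℕ → ℝ × ℝ) : field k ω = Pool.Agent.X111.FL.fi k ω := by
  funext z
  unfold field Pool.Agent.X111.FL.fi Pool.Agent.X111.FL.gf Pool.Agent.X111.JD.nn
  rfl

/-- the events -/
lemma event_Ev (k : ℝ) (c : ℕ → ℂ) (N : ℕ) (Q : Set ℂ) : event k c N Q = Pool.Agent.X111.HP.Ev k c N Q := by
  ext ω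
  simp only [event, Pool.Agent.X111.HP.Ev, Pool.Agent.X111.HP.Lc, Set.mem_ofPred_eq, field_fi]

/-- the sets -/
lemma zset_Z (c : ℕ → ℂ) (N : ℕ) (Q : Set ℂ) (δ : ℝ) : zset c N Q δ = Pool.Agent.X111.HP.Z δ c N Q := by
  ext t
  simp only [zset, Pool.Agent.X111.HP.Z, Pool.Agent.X111.HP.Lc_jf, Set.mem_ofPred_eq, mul_comm Complex.I]

/-- the moments -/
lemma rmom_eq (k δ T : ℝ) (A : Set ℝ) : rmom k δ T A = (2 * δ) ^ (k ^ 2) / T * ∫ t in Set.Icc 0 T ∩ A, ‖Pool.Agent.X111.FL.jf δ t 0‖ ^ (2 * k) := by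
  unfold rmom Pool.Agent.X111.FL.jf
  simp_rw [mul_one_div, mul_zero, add_zero, mul_comm Complex.I]

theorem result (k : ℝ) (hk : 0 < k) (hk2 : k ≤ 2) :
    0 < ak k ∧
    (∀ δ : ℝ → ℝ, Tendsto δ atTop (𝓝 0) → Tendsto (fun T : ℝ => δ T * Real.log T) atTop atTop →
      (∀ (N : ℕ) (c : ℕ → ℂ), (∃ j < N, c j ≠ 0) → ∀ Q : Set ℂ, IsCompact Q → (∀ z ∈ Q, -1 < z.re) →
        (∀ ε : ℝ, 0 < ε → ∀ᶠ T : ℝ in atTop, rmom k (δ T) T (zset c N Q (δ T)) ≤ ak k * noise.real (event k c N Q) + ε) ∧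
        (∀ U : Set ℂ, IsOpen U → U ⊆ Q → ∀ ε : ℝ, 0 < ε → ∀ᶠ T : ℝ in atTop, ak k * noise.real (event k c N U) - ε ≤ rmom k (δ T) T (zset c N U (δ T)))) ∧
      (∀ Q : Set ℂ, IsCompact Q → (∀ z ∈ Q, -1 < z.re) →
        Tendsto (fun T : ℝ => rmom k (δ T) T {t | ∃ z ∈ Q, riemannZeta (1 / 2 + δ T + Complex.I * t + δ T * z) = 0}) atTop (𝓝 0))) ∧
    (∀ a : ℂ,
      (∀ U : Set ℂ, IsOpen U → U.Nonempty → (∀ z ∈ U, -1 < z.re) → 0 < noise.real (event k (first a) 2 U)) ∧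
      (∀ Q : Set ℂ, IsCompact Q → (∀ z ∈ Q, -1 < z.re) → noise.real (event k (first a) 2 Q) < 1) ∧
      (∀ᵐ ω ∂noise, ∀ z : ℂ, -1 < z.re → (∑ j ∈ Finset.range 2, first a j * iteratedDeriv j (field k ω) z = 0 ↔
        ∑' n : ℕ, (((ω n).1 : ℂ) + (ω n).2 * Complex.I) * ((Real.sqrt (n + 1) : ℂ) * (z / (z + 2)) ^ n) = ((z + 2) ^ 2 * a + k * (z + 2)) / 2))) := by
  have hn : noise = Pool.Agent.X111.FL.PG := rfl
  have hca : ∀ a, first a = Pool.Agent.X111.HP.ca a := fun a => rfl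
  refine ⟨?_, fun δ hδ hδL => ⟨fun N c hc Q hQ hQ1 => ⟨fun ε hε => ?_, fun U hU hUQ ε hε => ?_⟩, fun Q hQ hQ1 => ?_⟩, fun a => ⟨fun U hU hne hU1 => ?_,
    fun Q hQ hQ1 => ?_, ?_⟩⟩
  · rw [ak_aF hk]
    exact Pool.Agent.H306R2.aF_pos hk
  · simp_rw [rmom_eq, zset_Z, event_Ev, hn, ak_aF hk]
    exact Pool.Agent.X111.HP.up_set hk hk2 hδ hδL c N hQ hQ1 hε
  · simp_rw [rmom_eq, zset_Z, event_Ev, hn, ak_aF hk]
    exact Pool.Agent.X111.HP.lo_set hk hk2 hδ hδL hc hU hUQ hQ hQ1 hε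
  · simp_rw [rmom_eq, mul_comm Complex.I]
    exact Pool.Agent.X111.HP.repulsion hk hk2 hδ hδL hQ hQ1
  · rw [event_Ev, hn, hca]
    exact Pool.Agent.X111.HP.Ev_pos k a hU hne hU1
  · rw [event_Ev, hn, hca]
    exact Pool.Agent.X111.HP.Ev_lt hk a hQ hQ1
  · rw [hn]
    filter_upwards [Pool.Agent.X111.FL.Gd_ae] with ω hω z hz
    have h1 := Pool.Agent.X111.HP.zero_iff k a hω hz
    have h2 := Pool.Agent.X111.HP.Lc_ca a (Pool.Agent.X111.FL.fi k ω) z
    unfold Pool.Agent.X111.HP.Lc at h2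
    rw [hca, field_fi, h2, sub_eq_zero, h1]
    unfold Pool.Agent.X111.HP.ro Pool.Agent.X111.HP.Gs
    rw [sub_eq_zero]
    rfl

end Pool.Agent.Results.MP_069854_nt.ZerosOfDerivatives
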